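import Pool.Agent.D0H34.YN.ENd
import Pool.Agent.D0H81.YN.Stm

/-!
# YN block, package EN
-/

set_option autoImplicit false
open MeasureTheory Filter Topology Complex Metric
open scoped ContDiff ENNReal NNReal

namespace Pool.Agent.D0H34.YN

theorem gn_eq (f : ℂ → ℝ) (z : ℂ) : Pool.Agent.D0H81.YN.gn f z = ‖fderiv ℝ f z‖ :=
  (norm_clm (fderiv ℝ f z)).symm

theorem lap_eq (f : ℂ → ℝ) (z : ℂ) : Pool.Agent.Q73.NL.lap f z = lp f z := rfl

theorem t_EN : Pool.Agent.D0H81.YN.S_EN := by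
  intro C₁ hC₁
  obtain ⟨C, hC1, h⟩ := en_loc (C₁ := C₁) (zero_le_one.trans hC₁)
  refine ⟨C, hC1, fun m hm => ?_⟩
  simp only [gn_eq]
  exact h m fun z hz => ⟨(hm z hz).1, (hm z hz).2.1, (hm z hz).2.2⟩

end Pool.Agent.D0H34.YN
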