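import Mathlib

/-!
# YN block, package EN: tools (norm of the derivative, divergence theorem, Cauchy–Schwarz,
# Gagliardo–Nirenberg–Sobolev in the plane)
-/

set_option autoImplicit false
open MeasureTheory Filter Topology Complex Metric
open scoped ContDiff ENNReal NNReal

namespace Pool.Agent.D0H34.YN

noncomputable section

/-- the norm of a real linear functional of the plane -/
theorem norm_clm (L : ℂ →L[ℝ] ℝ) : ‖L‖ = Real.sqrt (L 1 ^ 2 + L I ^ 2) := by
  have hL : ∀ v : ℂ, L v = v.re * L 1 + v.im * L I := by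
    intro v
    have hv : v = v.re • (1 : ℂ) + v.im • I := by
      apply Complex.ext <;> simp
    conv_lhs => rw [hv]
    rw [map_add, map_smul, map_smul, smul_eq_mul, smul_eq_mul]
  apply le_antisymm
  · refine L.opNorm_le_bound (Real.sqrt_nonneg _) fun v => ?_
    rw [Real.norm_eq_abs]
    apply abs_le_of_sq_le_sq _ (by positivity)
    rw [mul_pow, Real.sq_sqrt (by positivity), hL v]
    have : ‖v‖ ^ 2 = v.re ^ 2 + v.im ^ 2 := by
      rw [← Complex.normSq_eq_norm_sq, Complex.normSq_apply]; ring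
    rw [this]
    nlinarith [sq_nonneg (v.re * L I - v.im * L 1)]
  · set w : ℂ := ⟨L 1, L I⟩ with hw
    have hn : ‖w‖ = Real.sqrt (L 1 ^ 2 + L I ^ 2) := by
      rw [Complex.norm_def, Complex.normSq_apply]
      congr 1
      simp only [hw]
      ring
    have h1 : L w = ‖w‖ ^ 2 := by
      rw [hL w, hn, Real.sq_sqrt (by positivity)]
      simp only [hw]
      ring
    have h2 := L.le_opNorm w
    rw [h1, Real.norm_eq_abs, abs_of_nonneg (by positivity)] at h2
    rw [← hn]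
    rcases (norm_nonneg w).eq_or_lt with h | h
    · rw [← h]; exact norm_nonneg _
    · rw [pow_two] at h2
      exact le_of_mul_le_mul_right h2 h

theorem int_der {X : ℂ → ℝ} (hX : ContDiff ℝ 1 X) (hc : HasCompactSupport X) (v : ℂ) :
    Integrable (fun z => fderiv ℝ X z v) ∧ ∫ z, fderiv ℝ X z v = 0 := by
  have hcont : Continuous fun z => fderiv ℝ X z v :=
    (hX.continuous_fderiv one_ne_zero).clm_apply continuous_const
  have hcs : HasCompactSupport fun z => fderiv ℝ X z v := hc.fderiv_apply ℝ v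
  have hi := hcont.integrable_of_hasCompactSupport hcs (μ := volume)
  refine ⟨hi, ?_⟩
  have h1 := integral_mul_fderiv_eq_neg_fderiv_mul_of_integrable (𝕜 := ℝ) (μ := (volume : Measure ℂ))
    (f := fun _ : ℂ => (1 : ℝ)) (g := X) (v := v) (by simp) (by simpa using hi)
    (by simpa using hX.continuous.integrable_of_hasCompactSupport hc)
    (fun _ _ => differentiableAt_const _) (fun x _ => hX.differentiable one_ne_zero x)
  simpa using h1

/-- Cauchy–Schwarz -/
theorem cs {α : Type*} [MeasurableSpace α] {μ : Measure α} {f g : α → ℝ}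
    (hf : Integrable (fun z => f z ^ 2) μ) (hg : Integrable (fun z => g z ^ 2) μ)
    (hfg : Integrable (fun z => f z * g z) μ) :
    (∫ z, f z * g z ∂μ) ^ 2 ≤ (∫ z, f z ^ 2 ∂μ) * ∫ z, g z ^ 2 ∂μ := by
  have h : ∀ t : ℝ, 0 ≤ (∫ z, g z ^ 2 ∂μ) * (t * t) + (2 * ∫ z, f z * g z ∂μ) * t +
      ∫ z, f z ^ 2 ∂μ := by
    intro t
    have h1 : 0 ≤ ∫ z, (f z + t * g z) ^ 2 ∂μ := integral_nonneg fun z => sq_nonneg _
    have h2 : ∫ z, (f z + t * g z) ^ 2 ∂μ = (∫ z, g z ^ 2 ∂μ) * (t * t) +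
        (2 * ∫ z, f z * g z ∂μ) * t + ∫ z, f z ^ 2 ∂μ := by
      have e : (fun z => (f z + t * g z) ^ 2) =
          fun z => ((t * t) * (g z ^ 2) + (2 * t) * (f z * g z)) + f z ^ 2 := by
        funext z; ring
      have i1 : Integrable (fun z => (t * t) * (g z ^ 2)) μ := hg.const_mul _
      have i2 : Integrable (fun z => (2 * t) * (f z * g z)) μ := hfg.const_mul _
      have i3 : Integrable (fun z => (t * t) * (g z ^ 2) + (2 * t) * (f z * g z)) μ := i1.add i2
      rw [e, integral_add i3 hf, integral_add i1 i2, integral_const_mul, integral_const_mul]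
      ring
    rw [← h2]; exact h1
  have h3 := discrim_le_zero h
  unfold discrim at h3
  nlinarith

theorem gns_aux {u : ℂ → ℝ} (hu : ContDiff ℝ 1 u) (hc : HasCompactSupport u) :
    ∫⁻ x, ‖u x‖ₑ ^ (2 : ℝ) = ENNReal.ofReal (∫ z, u z ^ 2) := by
  have hs : HasCompactSupport fun z => u z ^ 2 := by
    simp only [pow_two]
    exact hc.mul_left
  have hi1 : Integrable (fun z => u z ^ 2) :=
    (hu.continuous.pow 2).integrable_of_hasCompactSupport hs
  rw [ofReal_integral_eq_lintegral_ofReal hi1 (ae_of_all _ fun z => sq_nonneg _)]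
  apply lintegral_congr
  intro x
  rw [← ofReal_norm, ENNReal.ofReal_rpow_of_nonneg (norm_nonneg _) (by norm_num)]
  congr 1
  rw [Real.norm_eq_abs, ← sq_abs]
  norm_cast

theorem gns_aux2 {u : ℂ → ℝ} (hu : ContDiff ℝ 1 u) (hc : HasCompactSupport u) :
    ∫⁻ x, ‖fderiv ℝ u x‖ₑ = ENNReal.ofReal (∫ z, ‖fderiv ℝ u z‖) := by
  have hi2 : Integrable (fun z => ‖fderiv ℝ u z‖) :=
    ((hu.continuous_fderiv one_ne_zero).norm).integrable_of_hasCompactSupport
      ((hc.fderiv ℝ).norm)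
  rw [ofReal_integral_eq_lintegral_ofReal hi2 (ae_of_all _ fun z => norm_nonneg _)]
  apply lintegral_congr
  intro x
  rw [← ofReal_norm]

theorem gns_aux3 : Real.HolderConjugate (Module.finrank ℝ ℂ) 2 := by
  rw [Complex.finrank_real_complex]
  exact Real.HolderConjugate.two_two

/-- Gagliardo–Nirenberg–Sobolev in the plane -/
theorem gns : ∃ K : ℝ, 0 ≤ K ∧ ∀ u : ℂ → ℝ, ContDiff ℝ 1 u → HasCompactSupport u →
    ∫ z, u z ^ 2 ≤ K * (∫ z, ‖fderiv ℝ u z‖) ^ 2 := by
  obtain ⟨K, hK⟩ : ∃ K : ℝ≥0, ∀ u : ℂ → ℝ, ContDiff ℝ 1 u → HasCompactSupport u →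
      ∫⁻ x, ‖u x‖ₑ ^ (2 : ℝ) ≤ K * (∫⁻ x, ‖fderiv ℝ u x‖ₑ) ^ (2 : ℝ) :=
    ⟨_, fun u hu hc => lintegral_pow_le_pow_lintegral_fderiv (volume : Measure ℂ) hu hc gns_aux3⟩
  refine ⟨K, K.coe_nonneg, fun u hu hc => ?_⟩
  have h := hK u hu hc
  rw [gns_aux hu hc, gns_aux2 hu hc,
    ENNReal.ofReal_rpow_of_nonneg (integral_nonneg fun _ => norm_nonneg _) (by norm_num),
    ← ENNReal.ofReal_coe_nnreal, ← ENNReal.ofReal_mul K.coe_nonneg,
    ENNReal.ofReal_le_ofReal_iff (by positivity)] at h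
  simpa using h

end

end Pool.Agent.D0H34.YN
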