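import Pool.Agent.D0H34.YN.ENa

/-!
# YN block, package EN: the estimate for a global smooth function
-/

set_option autoImplicit false
open MeasureTheory Filter Topology Complex Metric
open scoped ContDiff ENNReal NNReal

namespace Pool.Agent.D0H34.YN

noncomputable section

/-- the Laplacian -/
def lp (f : ℂ → ℝ) (z : ℂ) : ℝ :=
  fderiv ℝ (fun w => fderiv ℝ f w 1) z 1 + fderiv ℝ (fun w => fderiv ℝ f w I) z I

/-- the cutoff -/
def chi : ContDiffBump (0 : ℂ) := ⟨2, 5 / 2, by norm_num, by norm_num⟩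

theorem chi_cd : ContDiff ℝ ∞ (chi : ℂ → ℝ) := chi.contDiff

theorem chi_ts : tsupport (chi : ℂ → ℝ) = closedBall 0 (5 / 2) := chi.tsupport_eq

theorem chi_bd : ∃ D : ℝ, 0 ≤ D ∧ ∀ z, ‖fderiv ℝ (chi : ℂ → ℝ) z‖ ≤ D := by
  obtain ⟨D, hD⟩ := (chi_cd.continuous_fderiv (by simp)).bounded_above_of_compact_support
    (chi.hasCompactSupport.fderiv ℝ)
  exact ⟨max D 0, le_max_right _ _, fun z => (hD z).trans (le_max_left _ _)⟩

/-- the final inequality between the numbers -/
theorem fin_ineq {D c b K X J A E Y S : ℝ} (hD : 0 ≤ D) (hc : 0 ≤ c) (hb : 0 ≤ b) (hK : 0 ≤ K)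
    (hX : 0 ≤ X) (hJ : 0 ≤ J) (hA : 0 ≤ A) (hE : 0 ≤ E) (hY : 0 ≤ Y) (hS : 0 ≤ S)
    (h1 : A ≤ c * S) (h2 : S ^ 2 ≤ b * X) (h3 : J ^ 2 ≤ A * E) (h4 : E ^ 2 ≤ X * Y)
    (h5 : Y ≤ K * (2 * D * X + 2 * J) ^ 2) :
    J ≤ (2 * c * (b * K + 1) * (D + 1) + 1) * X := by
  set Q : ℝ := 2 * c * (b * K + 1) with hQ
  have hbK : 0 ≤ b * K := mul_nonneg hb hK
  have hQ0 : 0 ≤ Q := by positivity
  have hDX : 0 ≤ D * X + J := by positivity
  have h6 : (J ^ 2) ^ 2 ≤ (Q * X * (D * X + J)) ^ 2 := by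
    calc (J ^ 2) ^ 2 ≤ (A * E) ^ 2 := pow_le_pow_left₀ (by positivity) h3 2
      _ = A ^ 2 * E ^ 2 := by ring
      _ ≤ (c * S) ^ 2 * (X * Y) := mul_le_mul (pow_le_pow_left₀ hA h1 2) h4 (by positivity)
          (by positivity)
      _ = c ^ 2 * S ^ 2 * (X * Y) := by ring
      _ ≤ c ^ 2 * (b * X) * (X * (K * (2 * D * X + 2 * J) ^ 2)) := by
          apply mul_le_mul
          · exact mul_le_mul_of_nonneg_left h2 (by positivity)
          · exact mul_le_mul_of_nonneg_left h5 hX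
          · positivity
          · positivity
      _ = 4 * c ^ 2 * (b * K) * (X * (D * X + J)) ^ 2 := by ring
      _ ≤ Q ^ 2 * (X * (D * X + J)) ^ 2 := by
          apply mul_le_mul_of_nonneg_right _ (by positivity)
          rw [hQ]
          have : b * K ≤ (b * K + 1) ^ 2 := by nlinarith
          have h7 : 0 ≤ 4 * c ^ 2 := by positivity
          nlinarith [mul_le_mul_of_nonneg_left this h7]
      _ = (Q * X * (D * X + J)) ^ 2 := by ring
  have h8 : J ^ 2 ≤ Q * X * (D * X + J) :=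
    le_of_sq_le_sq h6 (by positivity)
  by_contra hcon
  push Not at hcon
  have h9 : X ≤ J := by
    have : 0 ≤ Q * (D + 1) * X := by positivity
    nlinarith
  have hJ0 : 0 < J := by
    rcases hJ.eq_or_lt with h | h
    · have : 0 ≤ (Q * (D + 1) + 1) * X := by positivity
      linarith
    · exact h
  have h10 : J ^ 2 ≤ Q * X * ((D + 1) * J) := by
    refine h8.trans (mul_le_mul_of_nonneg_left ?_ (by positivity))
    nlinarith
  have h11 : J ≤ Q * (D + 1) * X := by
    have : J * J ≤ (Q * (D + 1) * X) * J := by nlinarith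
    exact le_of_mul_le_mul_right this hJ0
  nlinarith

section

variable {s : ℂ → ℝ} (hs : ContDiff ℝ ∞ s) (h1 : ∀ z, 1 ≤ s z)

include hs in
theorem cd_d (v : ℂ) : ContDiff ℝ ∞ fun w => fderiv ℝ s w v :=
  (hs.fderiv_right (m := ∞) (by norm_cast)).clm_apply contDiff_const

include hs in
theorem fd_sq (z : ℂ) : fderiv ℝ (fun w => s w ^ 2) z = (2 * s z) • fderiv ℝ s z := by
  have hd : DifferentiableAt ℝ s z := hs.differentiable (by simp) z
  have := (hd.hasFDerivAt.pow 2).fderiv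
  rw [this]
  simp

include hs in
theorem lp_sq (z : ℂ) : lp (fun w => s w ^ 2) z =
    2 * (fderiv ℝ s z 1 ^ 2 + fderiv ℝ s z I ^ 2) + 2 * s z * lp s z := by
  have key : ∀ v : ℂ, fderiv ℝ (fun w => fderiv ℝ (fun w => s w ^ 2) w v) z v =
      2 * fderiv ℝ s z v ^ 2 + 2 * s z * fderiv ℝ (fun w => fderiv ℝ s w v) z v := by
    intro v
    have e : (fun w => fderiv ℝ (fun w => s w ^ 2) w v) = fun w => (2 * s w) * fderiv ℝ s w v := by
      funext w
      rw [fd_sq hs w]
      simp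
    rw [e]
    have hd : DifferentiableAt ℝ s z := hs.differentiable (by simp) z
    have hd2 : DifferentiableAt ℝ (fun w => fderiv ℝ s w v) z :=
      (cd_d hs v).differentiable (by simp) z
    have hd3 : DifferentiableAt ℝ (fun w => 2 * s w) z := hd.const_mul 2
    rw [fderiv_fun_mul hd3 hd2, fderiv_const_mul hd 2]
    simp
    ring
  unfold lp
  rw [key 1, key I]
  ring

end

end

end Pool.Agent.D0H34.YN
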