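import Pool.Agent.D0H34.YN.ENb

/-!
# YN block, package EN: the estimate for a global smooth function, continued
-/

set_option autoImplicit false
open MeasureTheory Filter Topology Complex Metric
open scoped ContDiff ENNReal NNReal

namespace Pool.Agent.D0H34.YN

noncomputable section

/-- the closed disc of radius `5/2` -/
abbrev BB : Set ℂ := closedBall (0 : ℂ) (5 / 2)

theorem int_BB {f : ℂ → ℝ} (hf : Continuous f) : Integrable f (volume.restrict BB) :=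
  hf.continuousOn.integrableOn_compact (isCompact_closedBall _ _)

section

variable {s : ℂ → ℝ} (hs : ContDiff ℝ ∞ s) (h1 : ∀ z, 1 ≤ s z)

/-- the field `χ² ∂ᵥ s` -/
def XF (s : ℂ → ℝ) (v w : ℂ) : ℝ := (chi : ℂ → ℝ) w ^ 2 * fderiv ℝ s w v

include hs in
theorem XF_cd (v : ℂ) : ContDiff ℝ ∞ (XF s v) := (chi_cd.pow 2).mul (cd_d hs v)

theorem XF_cs (s : ℂ → ℝ) (v : ℂ) : HasCompactSupport (XF s v) := by
  unfold XF
  have : HasCompactSupport fun w => (chi : ℂ → ℝ) w ^ 2 := by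
    simp only [pow_two]
    exact chi.hasCompactSupport.mul_left
  exact this.mul_right

theorem XF_out (s : ℂ → ℝ) (v : ℂ) {z : ℂ} (hz : z ∉ BB) : fderiv ℝ (XF s v) z = 0 := by
  have h : XF s v =ᶠ[𝓝 z] fun _ => 0 := by
    have h2 : z ∉ tsupport (chi : ℂ → ℝ) := by rwa [chi_ts]
    filter_upwards [notMem_tsupport_iff_eventuallyEq.1 h2] with w hw
    unfold XF
    rw [hw]
    simp
  rw [h.fderiv_eq]
  simp

include hs in
theorem XF_d (v z : ℂ) : fderiv ℝ (XF s v) z v =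
    2 * (chi : ℂ → ℝ) z * fderiv ℝ (chi : ℂ → ℝ) z v * fderiv ℝ s z v +
      (chi : ℂ → ℝ) z ^ 2 * fderiv ℝ (fun w => fderiv ℝ s w v) z v := by
  have hd : DifferentiableAt ℝ (fun w => (chi : ℂ → ℝ) w ^ 2) z :=
    (chi_cd.pow 2).differentiable (by simp) z
  have hd2 : DifferentiableAt ℝ (fun w => fderiv ℝ s w v) z :=
    (cd_d hs v).differentiable (by simp) z
  unfold XF
  rw [fderiv_fun_mul hd hd2, fd_sq chi_cd z]
  simp
  ring

include hs in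
/-- the divergence theorem -/
theorem div_zero : ∫ z in BB, (fderiv ℝ (XF s 1) z 1 + fderiv ℝ (XF s I) z I) = 0 := by
  have h : ∀ v : ℂ, Integrable (fun z => fderiv ℝ (XF s v) z v) (volume.restrict BB) ∧
      ∫ z in BB, fderiv ℝ (XF s v) z v = 0 := by
    intro v
    obtain ⟨i1, i2⟩ := int_der ((XF_cd hs v).of_le (by norm_cast)) (XF_cs s v) v
    refine ⟨i1.restrict, ?_⟩
    rw [setIntegral_eq_integral_of_forall_compl_eq_zero (fun z hz => ?_), i2]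
    rw [XF_out s v hz]
    simp
  rw [integral_add (h 1).1 (h I).1, (h 1).2, (h I).2, add_zero]

include hs h1 in
theorem pt_ineq {C₁ D : ℝ} (hC : 0 ≤ C₁) (hD0 : 0 ≤ D)
    (hD : ∀ z, ‖fderiv ℝ (chi : ℂ → ℝ) z‖ ≤ D) {z : ℂ}
    (hz : lp (fun w => s w ^ 2) z ≤ C₁) :
    (fderiv ℝ (XF s 1) z 1 + fderiv ℝ (XF s I) z I) +
      ((chi : ℂ → ℝ) z * ‖fderiv ℝ s z‖ / Real.sqrt (s z)) ^ 2 / 2 ≤
      (2 * D ^ 2 + C₁ / 2) * s z := by
  have hs0 : 0 < s z := lt_of_lt_of_le one_pos (h1 z)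
  have hs1 := h1 z
  rw [XF_d hs, XF_d hs]
  rw [lp_sq hs] at hz
  have hgn : ‖fderiv ℝ s z‖ ^ 2 = fderiv ℝ s z 1 ^ 2 + fderiv ℝ s z I ^ 2 := by
    rw [norm_clm, Real.sq_sqrt (by positivity)]
  have hpn : fderiv ℝ (chi : ℂ → ℝ) z 1 ^ 2 + fderiv ℝ (chi : ℂ → ℝ) z I ^ 2 ≤ D ^ 2 := by
    have := hD z
    rw [norm_clm] at this
    have h2 := (Real.sqrt_le_left hD0).1 this
    exact h2
  have hχ0 : 0 ≤ (chi : ℂ → ℝ) z := chi.nonneg
  have hχ1 : (chi : ℂ → ℝ) z ≤ 1 := chi.le_one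
  rw [div_pow, mul_pow, Real.sq_sqrt hs0.le, hgn]
  unfold lp at hz
  set c := (chi : ℂ → ℝ) z
  set p := fderiv ℝ (chi : ℂ → ℝ) z 1
  set q := fderiv ℝ (chi : ℂ → ℝ) z I
  set a := fderiv ℝ s z 1
  set b := fderiv ℝ s z I
  set A := fderiv ℝ (fun w => fderiv ℝ s w 1) z 1
  set B := fderiv ℝ (fun w => fderiv ℝ s w I) z I
  set t := s z
  have hc2 : c ^ 2 ≤ 1 := by nlinarith
  have hc20 : 0 ≤ c ^ 2 := sq_nonneg c
  have ht2 : 1 ≤ t ^ 2 := by nlinarith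
  -- multiply by `2 t`
  have hmul : (2 * c * p * a + c ^ 2 * A + (2 * c * q * b + c ^ 2 * B) +
      c ^ 2 * (a ^ 2 + b ^ 2) / t / 2) * (2 * t) ≤ ((2 * D ^ 2 + C₁ / 2) * t) * (2 * t) := by
    have e : (2 * c * p * a + c ^ 2 * A + (2 * c * q * b + c ^ 2 * B) +
      c ^ 2 * (a ^ 2 + b ^ 2) / t / 2) * (2 * t) =
        4 * t * c * (p * a + q * b) + c ^ 2 * (2 * t * (A + B)) + c ^ 2 * (a ^ 2 + b ^ 2) := by
      field_simp
      ring
    rw [e]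
    have e1 : c ^ 2 * (2 * t * (A + B)) ≤ c ^ 2 * (C₁ - 2 * (a ^ 2 + b ^ 2)) :=
      mul_le_mul_of_nonneg_left (by linarith) hc20
    have e2 : 4 * t * c * (p * a + q * b) ≤ c ^ 2 * (a ^ 2 + b ^ 2) + 4 * t ^ 2 * (p ^ 2 + q ^ 2) := by
      nlinarith [sq_nonneg (c * a - 2 * t * p), sq_nonneg (c * b - 2 * t * q)]
    have e3 : 4 * t ^ 2 * (p ^ 2 + q ^ 2) ≤ 4 * t ^ 2 * D ^ 2 :=
      mul_le_mul_of_nonneg_left hpn (by positivity)
    have e4 : c ^ 2 * C₁ ≤ t ^ 2 * C₁ := mul_le_mul_of_nonneg_right (hc2.trans ht2) hC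
    nlinarith
  exact le_of_mul_le_mul_right hmul (by positivity)

include hs h1 in
/-- the energy inequality -/
theorem energy {C₁ D : ℝ} (hC : 0 ≤ C₁) (hD0 : 0 ≤ D)
    (hD : ∀ z, ‖fderiv ℝ (chi : ℂ → ℝ) z‖ ≤ D)
    (hz : ∀ z ∈ BB, lp (fun w => s w ^ 2) z ≤ C₁) :
    ∫ z in BB, ((chi : ℂ → ℝ) z * ‖fderiv ℝ s z‖ / Real.sqrt (s z)) ^ 2 ≤
      (4 * D ^ 2 + C₁) * ∫ z in BB, s z := by
  have hne : ∀ z, Real.sqrt (s z) ≠ 0 := fun z =>
    (Real.sqrt_pos.2 (lt_of_lt_of_le one_pos (h1 z))).ne'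
  have c1 : Continuous fun z => ((chi : ℂ → ℝ) z * ‖fderiv ℝ s z‖ / Real.sqrt (s z)) ^ 2 :=
    (((chi_cd.continuous).mul (hs.continuous_fderiv (by simp)).norm).div
      (Real.continuous_sqrt.comp hs.continuous) hne).pow 2
  have c2 : Continuous fun z => fderiv ℝ (XF s 1) z 1 + fderiv ℝ (XF s I) z I :=
    ((cd_d (XF_cd hs 1) 1).continuous).add ((cd_d (XF_cd hs I) I).continuous)
  have i1 := int_BB c1
  have i2 := int_BB c2
  have i3 : Integrable (fun z => (fderiv ℝ (XF s 1) z 1 + fderiv ℝ (XF s I) z I) +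
      ((chi : ℂ → ℝ) z * ‖fderiv ℝ s z‖ / Real.sqrt (s z)) ^ 2 / 2) (volume.restrict BB) :=
    i2.add (i1.div_const 2)
  have i4 : Integrable (fun z => (2 * D ^ 2 + C₁ / 2) * s z) (volume.restrict BB) :=
    int_BB (continuous_const.mul hs.continuous)
  have h := setIntegral_mono_on i3 i4 measurableSet_closedBall
    (fun z hz' => pt_ineq hs h1 hC hD0 hD (hz z hz'))
  rw [integral_add i2 (i1.div_const 2), div_zero hs, integral_div, integral_const_mul] at h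
  linarith

end

end

end Pool.Agent.D0H34.YN
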