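import Pool.Agent.D0H34.YN.ENc

/-!
# YN block, package EN: the estimate for a global smooth function, end
-/

set_option autoImplicit false
open MeasureTheory Filter Topology Complex Metric
open scoped ContDiff ENNReal NNReal

namespace Pool.Agent.D0H34.YN

noncomputable section

section

variable {s : ℂ → ℝ} (hs : ContDiff ℝ ∞ s) (h1 : ∀ z, 1 ≤ s z)

include hs in
/-- the Sobolev inequality for `χ² s²` -/
theorem sobo {K D : ℝ} (hK0 : 0 ≤ K) (hK : ∀ u : ℂ → ℝ, ContDiff ℝ 1 u → HasCompactSupport u →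
      ∫ z, u z ^ 2 ≤ K * (∫ z, ‖fderiv ℝ u z‖) ^ 2)
    (hD : ∀ z, ‖fderiv ℝ (chi : ℂ → ℝ) z‖ ≤ D) (h1 : ∀ z, 1 ≤ s z) :
    ∫ z in BB, ((chi : ℂ → ℝ) z ^ 2 * s z ^ 2) ^ 2 ≤
      K * (2 * D * (∫ z in BB, s z ^ 2) +
        2 * ∫ z in BB, (chi : ℂ → ℝ) z ^ 2 * (s z * ‖fderiv ℝ s z‖)) ^ 2 := by
  set u : ℂ → ℝ := fun z => (chi : ℂ → ℝ) z ^ 2 * s z ^ 2 with hu
  have hucd : ContDiff ℝ ∞ u := (chi_cd.pow 2).mul (hs.pow 2)
  have hucs : HasCompactSupport u := by
    have : HasCompactSupport fun w => (chi : ℂ → ℝ) w ^ 2 := by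
      simp only [pow_two]
      exact chi.hasCompactSupport.mul_left
    exact this.mul_right
  have hout : ∀ z, z ∉ BB → fderiv ℝ u z = 0 := by
    intro z hz
    have h : u =ᶠ[𝓝 z] fun _ => 0 := by
      have h2 : z ∉ tsupport (chi : ℂ → ℝ) := by rwa [chi_ts]
      filter_upwards [notMem_tsupport_iff_eventuallyEq.1 h2] with w hw
      simp only [hu]
      rw [hw]
      simp
    rw [h.fderiv_eq]
    simp
  have g1 := hK u (hucd.of_le (by norm_cast)) hucs
  have g2 : ∫ z in BB, u z ^ 2 ≤ ∫ z, u z ^ 2 := by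
    apply setIntegral_le_integral
    · apply (hucd.continuous.pow 2).integrable_of_hasCompactSupport
      simp only [pow_two]
      exact hucs.mul_left
    · exact ae_of_all _ fun z => sq_nonneg _
  have g3 : ∫ z, ‖fderiv ℝ u z‖ = ∫ z in BB, ‖fderiv ℝ u z‖ := by
    rw [setIntegral_eq_integral_of_forall_compl_eq_zero]
    intro z hz
    rw [hout z hz]
    simp
  have ci : Continuous fun z => ‖fderiv ℝ s z‖ := (hs.continuous_fderiv (by simp)).norm
  have i1 : Integrable (fun z => 2 * D * s z ^ 2) (volume.restrict BB) :=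
    int_BB (continuous_const.mul (hs.continuous.pow 2))
  have i2 : Integrable (fun z => 2 * ((chi : ℂ → ℝ) z ^ 2 * (s z * ‖fderiv ℝ s z‖)))
      (volume.restrict BB) :=
    int_BB (continuous_const.mul ((chi_cd.continuous.pow 2).mul (hs.continuous.mul ci)))
  have g4 : ∫ z in BB, ‖fderiv ℝ u z‖ ≤ 2 * D * (∫ z in BB, s z ^ 2) +
      2 * ∫ z in BB, (chi : ℂ → ℝ) z ^ 2 * (s z * ‖fderiv ℝ s z‖) := by
    rw [← integral_const_mul, ← integral_const_mul, ← integral_add i1 i2]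
    refine integral_mono (int_BB (hucd.continuous_fderiv (by simp)).norm) (i1.add i2) fun z => ?_
    have hd : DifferentiableAt ℝ (fun w => (chi : ℂ → ℝ) w ^ 2) z :=
      (chi_cd.pow 2).differentiable (by simp) z
    have hd2 : DifferentiableAt ℝ (fun w => s w ^ 2) z := (hs.pow 2).differentiable (by simp) z
    have hs0 : 0 ≤ s z := zero_le_one.trans (h1 z)
    have hχ0 : 0 ≤ (chi : ℂ → ℝ) z := chi.nonneg
    have hχ1 : (chi : ℂ → ℝ) z ≤ 1 := chi.le_one
    have e : fderiv ℝ u z = ((chi : ℂ → ℝ) z ^ 2) • ((2 * s z) • fderiv ℝ s z) +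
        (s z ^ 2) • ((2 * (chi : ℂ → ℝ) z) • fderiv ℝ (chi : ℂ → ℝ) z) := by
      simp only [hu]
      rw [fderiv_fun_mul hd hd2, fd_sq chi_cd z, fd_sq hs z]
    show ‖fderiv ℝ u z‖ ≤ 2 * D * s z ^ 2 + 2 * ((chi : ℂ → ℝ) z ^ 2 * (s z * ‖fderiv ℝ s z‖))
    rw [e]
    refine (norm_add_le _ _).trans ?_
    rw [norm_smul, norm_smul, norm_smul, norm_smul, Real.norm_of_nonneg (sq_nonneg _),
      Real.norm_of_nonneg (by positivity), Real.norm_of_nonneg (sq_nonneg _),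
      Real.norm_of_nonneg (by positivity)]
    have h3 : s z ^ 2 * (2 * (chi : ℂ → ℝ) z * ‖fderiv ℝ (chi : ℂ → ℝ) z‖) ≤
        s z ^ 2 * (2 * 1 * D) := by
      gcongr
      exact hD z
    nlinarith
  calc ∫ z in BB, ((chi : ℂ → ℝ) z ^ 2 * s z ^ 2) ^ 2 = ∫ z in BB, u z ^ 2 := rfl
    _ ≤ ∫ z, u z ^ 2 := g2
    _ ≤ K * (∫ z, ‖fderiv ℝ u z‖) ^ 2 := g1
    _ = K * (∫ z in BB, ‖fderiv ℝ u z‖) ^ 2 := by rw [g3]
    _ ≤ _ := by
      apply mul_le_mul_of_nonneg_left _ hK0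
      exact pow_le_pow_left₀ (integral_nonneg fun _ => norm_nonneg _) g4 2

end

theorem en_s {C₁ : ℝ} (hC : 0 ≤ C₁) : ∃ C : ℝ, 1 ≤ C ∧ ∀ s : ℂ → ℝ, ContDiff ℝ ∞ s →
    (∀ z, 1 ≤ s z) → (∀ z ∈ BB, lp (fun w => s w ^ 2) z ≤ C₁) →
    ∫ z in ball (0 : ℂ) 2, ‖fderiv ℝ (fun w => s w ^ 2) z‖ ≤ C * ∫ z in BB, s z ^ 2 := by
  obtain ⟨D, hD0, hD⟩ := chi_bd
  obtain ⟨K, hK0, hK⟩ := gns
  set b : ℝ := (volume BB).toReal with hb
  have hb0 : 0 ≤ b := ENNReal.toReal_nonneg
  set c : ℝ := 4 * D ^ 2 + C₁ with hc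
  have hc0 : 0 ≤ c := by positivity
  refine ⟨2 * (2 * c * (b * K + 1) * (D + 1) + 1), ?_, fun s hs h1 hz => ?_⟩
  · have : 0 ≤ 2 * c * (b * K + 1) * (D + 1) := by positivity
    linarith
  have hs0 : ∀ z, 0 ≤ s z := fun z => zero_le_one.trans (h1 z)
  have ci : Continuous fun z => ‖fderiv ℝ s z‖ := (hs.continuous_fderiv (by simp)).norm
  have cs' : Continuous fun z => Real.sqrt (s z) := Real.continuous_sqrt.comp hs.continuous
  have cc : Continuous (chi : ℂ → ℝ) := chi_cd.continuous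
  have hne : ∀ z, Real.sqrt (s z) ≠ 0 := fun z =>
    (Real.sqrt_pos.2 (lt_of_lt_of_le one_pos (h1 z))).ne'
  set X := ∫ z in BB, s z ^ 2 with hX
  set J := ∫ z in BB, (chi : ℂ → ℝ) z ^ 2 * (s z * ‖fderiv ℝ s z‖) with hJ
  set A := ∫ z in BB, ((chi : ℂ → ℝ) z * ‖fderiv ℝ s z‖ / Real.sqrt (s z)) ^ 2 with hA
  set E := ∫ z in BB, ((chi : ℂ → ℝ) z * (s z * Real.sqrt (s z))) ^ 2 with hE
  set Y := ∫ z in BB, ((chi : ℂ → ℝ) z ^ 2 * s z ^ 2) ^ 2 with hY
  set S := ∫ z in BB, s z with hS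
  have a1 : A ≤ c * S := energy hs h1 hC hD0 hD hz
  have a2 : S ^ 2 ≤ b * X := by
    have h := cs (μ := volume.restrict BB) (f := fun _ => (1 : ℝ)) (g := s)
      (int_BB (continuous_const.pow 2)) (int_BB (hs.continuous.pow 2))
      (int_BB (continuous_const.mul hs.continuous))
    simpa [hb, Measure.real] using h
  have a3 : J ^ 2 ≤ A * E := by
    have c1 : Continuous fun z => (chi : ℂ → ℝ) z * ‖fderiv ℝ s z‖ / Real.sqrt (s z) :=
      (cc.mul ci).div cs' hne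
    have c2 : Continuous fun z => (chi : ℂ → ℝ) z * (s z * Real.sqrt (s z)) :=
      cc.mul (hs.continuous.mul cs')
    have h := cs (μ := volume.restrict BB)
      (f := fun z => (chi : ℂ → ℝ) z * ‖fderiv ℝ s z‖ / Real.sqrt (s z))
      (g := fun z => (chi : ℂ → ℝ) z * (s z * Real.sqrt (s z)))
      (int_BB (c1.pow 2)) (int_BB (c2.pow 2)) (int_BB (c1.mul c2))
    have e : ∀ z, (chi : ℂ → ℝ) z * ‖fderiv ℝ s z‖ / Real.sqrt (s z) *
        ((chi : ℂ → ℝ) z * (s z * Real.sqrt (s z))) =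
        (chi : ℂ → ℝ) z ^ 2 * (s z * ‖fderiv ℝ s z‖) := by
      intro z
      have := hne z
      field_simp
    simp only [e] at h
    exact h
  have a4 : E ^ 2 ≤ X * Y := by
    have c1 : Continuous fun z => (chi : ℂ → ℝ) z ^ 2 * s z ^ 2 :=
      (cc.pow 2).mul (hs.continuous.pow 2)
    have h := cs (μ := volume.restrict BB) (f := s)
      (g := fun z => (chi : ℂ → ℝ) z ^ 2 * s z ^ 2)
      (int_BB (hs.continuous.pow 2)) (int_BB (c1.pow 2)) (int_BB (hs.continuous.mul c1))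
    have e : ∀ z, s z * ((chi : ℂ → ℝ) z ^ 2 * s z ^ 2) =
        ((chi : ℂ → ℝ) z * (s z * Real.sqrt (s z))) ^ 2 := by
      intro z
      rw [mul_pow, mul_pow, Real.sq_sqrt (hs0 z)]
      ring
    simp only [e] at h
    exact h
  have a5 := sobo hs hK0 hK hD h1
  have hX0 : 0 ≤ X := integral_nonneg fun z => sq_nonneg _
  have hJ0 : 0 ≤ J := integral_nonneg fun z =>
    mul_nonneg (sq_nonneg _) (mul_nonneg (hs0 z) (norm_nonneg _))
  have fin := fin_ineq hD0 hc0 hb0 hK0 hX0 hJ0 (integral_nonneg fun z => sq_nonneg _)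
    (integral_nonneg fun z => sq_nonneg _) (integral_nonneg fun z => sq_nonneg _)
    (integral_nonneg hs0) a1 a2 a3 a4 a5
  have l1 : ∫ z in ball (0 : ℂ) 2, ‖fderiv ℝ (fun w => s w ^ 2) z‖ ≤ 2 * J := by
    rw [hJ, ← integral_const_mul]
    have i2 : Integrable (fun z => 2 * ((chi : ℂ → ℝ) z ^ 2 * (s z * ‖fderiv ℝ s z‖)))
        (volume.restrict BB) :=
      int_BB (continuous_const.mul ((cc.pow 2).mul (hs.continuous.mul ci)))
    have hsub : ball (0 : ℂ) 2 ⊆ BB := ball_subset_closedBall.trans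
      (closedBall_subset_closedBall (by norm_num))
    calc ∫ z in ball (0 : ℂ) 2, ‖fderiv ℝ (fun w => s w ^ 2) z‖
        = ∫ z in ball (0 : ℂ) 2, 2 * ((chi : ℂ → ℝ) z ^ 2 * (s z * ‖fderiv ℝ s z‖)) := by
          apply setIntegral_congr_fun measurableSet_ball
          intro z hz'
          have : (chi : ℂ → ℝ) z = 1 := chi.one_of_mem_closedBall (ball_subset_closedBall hz')
          show ‖fderiv ℝ (fun w => s w ^ 2) z‖ = 2 * ((chi : ℂ → ℝ) z ^ 2 * (s z * ‖fderiv ℝ s z‖))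
          rw [this, fd_sq hs z, norm_smul, Real.norm_of_nonneg (mul_nonneg zero_le_two (hs0 z))]
          ring
      _ ≤ ∫ z in BB, 2 * ((chi : ℂ → ℝ) z ^ 2 * (s z * ‖fderiv ℝ s z‖)) := by
          apply setIntegral_mono_set i2
          · exact ae_of_all _ fun z => mul_nonneg zero_le_two
              (mul_nonneg (sq_nonneg _) (mul_nonneg (hs0 z) (norm_nonneg _)))
          · exact hsub.eventuallyLE
  calc ∫ z in ball (0 : ℂ) 2, ‖fderiv ℝ (fun w => s w ^ 2) z‖ ≤ 2 * J := l1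
    _ ≤ 2 * ((2 * c * (b * K + 1) * (D + 1) + 1) * X) := by linarith
    _ = _ := by ring

/-- the estimate with the function given only on the disc of radius `3` -/
theorem en_loc {C₁ : ℝ} (hC : 0 ≤ C₁) : ∃ C : ℝ, 1 ≤ C ∧ ∀ m : ℂ → ℝ,
    (∀ z ∈ closedBall (0 : ℂ) 3, ContDiffAt ℝ ∞ m z ∧ 1 ≤ m z ∧ lp m z ≤ C₁) →
    ∫ z in ball (0 : ℂ) 2, ‖fderiv ℝ m z‖ ≤ C * ∫ z in ball (0 : ℂ) 3, m z := by
  obtain ⟨C, hC1, h⟩ := en_s hC
  refine ⟨C, hC1, fun m hm => ?_⟩
  let θ : ContDiffBump (0 : ℂ) := ⟨11 / 4, 3, by norm_num, by norm_num⟩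
  have θcd : ContDiff ℝ ∞ (θ : ℂ → ℝ) := θ.contDiff
  set M : ℂ → ℝ := fun z => 1 + θ z * (m z - 1) with hM
  have hMcd : ContDiff ℝ ∞ M := by
    rw [contDiff_iff_contDiffAt]
    intro z
    by_cases hz : z ∈ closedBall (0 : ℂ) 3
    · exact contDiffAt_const.add (θcd.contDiffAt.mul ((hm z hz).1.sub contDiffAt_const))
    · have h2 : z ∉ tsupport (θ : ℂ → ℝ) := by rwa [θ.tsupport_eq]
      have : M =ᶠ[𝓝 z] fun _ => 1 := by
        filter_upwards [notMem_tsupport_iff_eventuallyEq.1 h2] with w hw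
        simp only [hM]
        rw [hw]
        simp
      exact contDiffAt_const.congr_of_eventuallyEq this
  have hM1 : ∀ z, 1 ≤ M z := by
    intro z
    by_cases hz : z ∈ closedBall (0 : ℂ) 3
    · have := (hm z hz).2.1
      have h2 : 0 ≤ θ z * (m z - 1) := mul_nonneg θ.nonneg (by linarith)
      simp only [hM]
      linarith
    · have : θ z = 0 := by
        apply θ.zero_of_le_dist
        rw [mem_closedBall, not_le] at hz
        exact hz.le
      simp only [hM]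
      rw [this]
      simp
  have hMm : ∀ z ∈ BB, M =ᶠ[𝓝 z] m := by
    intro z hz
    have hz2 : z ∈ ball (0 : ℂ) (11 / 4) := by
      rw [mem_closedBall] at hz
      rw [mem_ball]
      linarith
    filter_upwards [isOpen_ball.mem_nhds hz2] with w hw
    have : θ w = 1 := θ.one_of_mem_closedBall (ball_subset_closedBall hw)
    simp only [hM]
    rw [this]
    ring
  have hsq : ∀ z, Real.sqrt (M z) ^ 2 = M z := fun z =>
    Real.sq_sqrt (zero_le_one.trans (hM1 z))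
  have hfun : (fun z => Real.sqrt (M z) ^ 2) = M := funext hsq
  have hlap : ∀ z ∈ BB, lp M z ≤ C₁ := by
    intro z hz
    have hz3 : z ∈ closedBall (0 : ℂ) 3 :=
      closedBall_subset_closedBall (by norm_num) hz
    have e : lp M z = lp m z := by
      have h2 : ∀ v : ℂ, (fun w => fderiv ℝ M w v) =ᶠ[𝓝 z] fun w => fderiv ℝ m w v := by
        intro v
        filter_upwards [(hMm z hz).fderiv (𝕜 := ℝ)] with w hw
        rw [hw]
      unfold lp
      rw [(h2 1).fderiv_eq, (h2 I).fderiv_eq]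
    rw [e]
    exact (hm z hz3).2.2
  have key := h (fun z => Real.sqrt (M z)) (hMcd.sqrt fun z => (lt_of_lt_of_le one_pos (hM1 z)).ne')
    (fun z => Real.one_le_sqrt.2 (hM1 z)) (by rw [hfun]; exact hlap)
  rw [hfun] at key
  have hsub : ball (0 : ℂ) 2 ⊆ BB := ball_subset_closedBall.trans
      (closedBall_subset_closedBall (by norm_num))
  have e1 : ∫ z in ball (0 : ℂ) 2, ‖fderiv ℝ m z‖ = ∫ z in ball (0 : ℂ) 2, ‖fderiv ℝ M z‖ := by
    apply setIntegral_congr_fun measurableSet_ball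
    intro z hz
    show ‖fderiv ℝ m z‖ = ‖fderiv ℝ M z‖
    rw [(hMm z (hsub hz)).fderiv_eq]
  have e2 : integral (volume.restrict BB) M = ∫ z in BB, m z := by
    apply setIntegral_congr_fun measurableSet_closedBall
    intro z hz
    exact (hMm z hz).self_of_nhds
  have e3 : ∫ z in BB, m z ≤ ∫ z in ball (0 : ℂ) 3, m z := by
    have hi : IntegrableOn m (ball (0 : ℂ) 3) := by
      have h3 : ContinuousOn m (closedBall (0 : ℂ) 3) := fun z hz =>
        (hm z hz).1.continuousAt.continuousWithinAt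
      exact (h3.integrableOn_compact (isCompact_closedBall _ _)).mono_set ball_subset_closedBall
    apply setIntegral_mono_set hi
    · rw [Filter.EventuallyLE, ae_restrict_iff' measurableSet_ball]
      exact ae_of_all _ fun z hz => zero_le_one.trans (hm z (ball_subset_closedBall hz)).2.1
    · exact (closedBall_subset_ball (by norm_num)).eventuallyLE
  rw [e1]
  rw [e2] at key
  exact key.trans (mul_le_mul_of_nonneg_left e3 (zero_le_one.trans hC1))

end

end Pool.Agent.D0H34.YN
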